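import Mathlib

set_option autoImplicit false

namespace Pool.Agent.Results.MP_850d3d_an.Yes
open Filter Topology Finset

/-- `g` is locally solvent of degree `m` at `a` -/
def Solvent {A Q : Type*} (g : A → Q → ℝ) (m : ℕ) (a : A) : Prop :=
  ∀ T : Finset Q, T.card = m → ∀ ε > 0, ∃ δ > 0, ∀ γ : Q → ℝ, (∀ t ∈ T, |g a t - γ t| < δ) →
    ∃ b, (∀ t ∈ T, g b t = γ t) ∧ ∀ q, |g b q - g a q| < ε

/-- `g` is varisolvent with a non-constant degree function with values in `1, …, |Q|` -/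
def Varisolvent {A Q : Type*} [Fintype Q] (g : A → Q → ℝ) : Prop :=
  ∃ p : A → ℕ, (∃ a b, p a ≠ p b) ∧ (∀ a, 1 ≤ p a ∧ p a ≤ Fintype.card Q) ∧
    (∀ a, Solvent g (p a) a) ∧
    ∀ a b, b ≠ a → Set.ncard {q | g a q - g b q = 0} ≤ p a - 1

theorem result {A Q : Type*} [Fintype Q] (g : A → Q → ℝ) (hg : Varisolvent g)
    (hc : IsConnected (Set.range g)) : ¬ IsClosed (Set.range g) := by
  classical
  intro hcl
  obtain ⟨p, ⟨a1, a2, hne⟩, hp, hs, hz⟩ := hg
  have zer : ∀ a b, b ≠ a → ∀ S : Finset Q, (∀ t ∈ S, g a t = g b t) → S.card + 1 ≤ p a := by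
    intro a b h S hS
    have h1 := Set.ncard_le_ncard (s := (S : Set Q)) (t := {q | g a q - g b q = 0})
      (fun t ht => sub_eq_zero.mpr (hS t ht))
    rw [Set.ncard_coe_finset] at h1
    have := hz a b h
    have := (hp a).1
    omega
  obtain ⟨a0, h0⟩ : ∃ a0, ∀ a, p a ≤ p a0 := by
    have : (Set.range p).Finite :=
      (Set.finite_le_nat (Fintype.card Q)).subset (by rintro _ ⟨a, rfl⟩; exact (hp a).2)
    obtain ⟨_, ⟨a, rfl⟩, h⟩ := this.exists_maximal ⟨_, a1, rfl⟩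
    exact ⟨a, fun b => by
      by_contra c
      exact c (h ⟨b, rfl⟩ (by omega))⟩
  obtain ⟨T, -, hT⟩ := exists_subset_card_eq (s := (univ : Finset Q)) (n := p a0) (hp a0).2
  obtain ⟨t, ht⟩ := card_pos.mp (show 0 < T.card by rw [hT]; exact (hp a0).1)
  have hS : (T.erase t).card + 1 = p a0 := by rw [card_erase_add_one ht, hT]
  have push : ∀ a, p a = p a0 → ∀ ε > 0, ∃ δ > 0, ∀ x : Q → ℝ, ‖x - g a‖ < δ →
      ∃ b, (∀ s ∈ T.erase t, g b s = x s) ∧ x t < g b t ∧ ‖g b - g a‖ < ε := by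
    intro a ha ε hε
    obtain ⟨δ, hδ, h⟩ := hs a T (hT.trans ha.symm) ε hε
    refine ⟨δ / 2, by positivity, fun x hx => ?_⟩
    have hx' := fun q => abs_lt.mp ((pi_norm_lt_iff (by positivity)).mp hx q)
    obtain ⟨b, h1, h2⟩ := h (Function.update x t (x t + δ / 2)) (fun s _ => by
      have := hx' s
      simp only [Pi.sub_apply] at this
      by_cases e : s = t
      · subst e; rw [Function.update_self, abs_lt]; constructor <;> linarith [this.1, this.2]
      · rw [Function.update_of_ne e, abs_lt]; constructor <;> linarith [this.1, this.2])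
    refine ⟨b, fun s hs => ?_, ?_, (pi_norm_lt_iff hε).mpr h2⟩
    · rw [h1 s (mem_of_mem_erase hs), Function.update_of_ne (ne_of_mem_erase hs)]
    · rw [h1 t ht, Function.update_self]; linarith
  set U : Set (Q → ℝ) := {x | ∃ a, p a = p a0 ∧ g a = x} with hU
  have hUc : IsClosed U := by
    refine isClosed_of_closure_subset fun x hx => ?_
    have sub : U ⊆ Set.range g := fun y ⟨b, _, e⟩ => ⟨b, e⟩
    obtain ⟨a, rfl⟩ := hcl.closure_subset (closure_mono sub hx)
    have hK : IsCompact (Set.range g ∩ Metric.sphere (g a) 1) :=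
      (isCompact_sphere _ _).inter_left hcl
    have ex : ∀ b, p b = p a0 → ‖g b - g a‖ < 1 → ∃ e ∈ Set.range g ∩ Metric.sphere (g a) 1,
        ∀ s ∈ T.erase t, e s = g b s := by
      intro b hb hb1
      by_contra hn
      have hF : IsCompact ((Set.range g ∩ ⋂ s ∈ T.erase t, {e | e s = g b s}) ∩
          Metric.closedBall (g a) 1) := (isCompact_closedBall _ _).inter_left (hcl.inter
        (isClosed_biInter fun s _ => isClosed_eq (continuous_apply s) continuous_const))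
      obtain ⟨_, ⟨⟨⟨c, rfl⟩, c1⟩, c2⟩, hm⟩ := hF.exists_isMaxOn
        ⟨g b, ⟨⟨b, rfl⟩, by simp⟩, mem_closedBall_iff_norm.mpr hb1.le⟩
        (continuous_apply t).continuousOn
      simp only [Set.mem_iInter, Set.mem_ofPred_eq] at c1
      have c3 : ‖g c - g a‖ < 1 := lt_of_le_of_ne (mem_closedBall_iff_norm.mp c2)
        fun e => hn ⟨g c, ⟨⟨c, rfl⟩, mem_sphere_iff_norm.mpr e⟩, c1⟩
      have c4 : p c = p a0 := by
        by_cases e : b = c
        · rw [← e, hb]
        · have := zer c b e _ c1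
          have := h0 c
          omega
      obtain ⟨δ, hδ, h⟩ := push c c4 (1 - ‖g c - g a‖) (by linarith)
      obtain ⟨d, d1, d2, d3⟩ := h (g c) (by simpa using hδ)
      refine absurd (hm (a := g d) ⟨⟨⟨d, rfl⟩, ?_⟩, mem_closedBall_iff_norm.mpr ?_⟩) (not_le.mpr d2)
      · simp only [Set.mem_iInter, Set.mem_ofPred_eq]
        exact fun s hs => (d1 s hs).trans (c1 s hs)
      · linarith [norm_sub_le_norm_sub_add_norm_sub (g d) (g c) (g a)]
    obtain ⟨y, hy, ly⟩ := mem_closure_iff_seq_limit.mp hx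
    obtain ⟨N, hN⟩ := Metric.tendsto_atTop.mp ly 1 one_pos
    have ex2 : ∀ n, ∃ e ∈ Set.range g ∩ Metric.sphere (g a) 1, ∀ s ∈ T.erase t, e s = y (n + N) s := by
      intro n
      obtain ⟨b, hb, e⟩ := hy (n + N)
      rw [← e]
      exact ex b hb (by rw [e, ← dist_eq_norm]; exact hN _ (by omega))
    choose e he he' using ex2
    obtain ⟨_, ⟨⟨c, rfl⟩, c2⟩, φ, hφ, l⟩ := hK.tendsto_subseq he
    have c3 : c ≠ a := by rintro rfl; simp at c2
    have c4 := zer a c c3 (T.erase t) fun s hs => by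
      have l1 := ((continuous_apply s).tendsto _).comp l
      have l2 := ((continuous_apply s).tendsto _).comp
        ((ly.comp (tendsto_add_atTop_nat N)).comp hφ.tendsto_atTop)
      exact tendsto_nhds_unique l2 (l1.congr fun n => he' _ s hs)
    have := h0 a
    exact ⟨a, by omega, rfl⟩
  have hUo : ∀ x ∈ U, ∃ δ > 0, ∀ b, ‖g b - x‖ < δ → p b = p a0 := by
    rintro _ ⟨a, ha, rfl⟩
    obtain ⟨δ, hδ, h⟩ := push a ha 1 one_pos
    refine ⟨δ, hδ, fun b hb => ?_⟩
    obtain ⟨c, c1, c2, -⟩ := h (g b) hb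
    have := zer b c (by rintro rfl; exact lt_irrefl _ c2) _ fun s hs => (c1 s hs).symm
    have := h0 b
    omega
  choose! δ hδ hδ' using hUo
  obtain ⟨a, ha⟩ : ∃ a, p a ≠ p a0 := by
    by_contra c
    push Not at c
    exact hne ((c a1).trans (c a2).symm)
  have m0 : g a0 ∈ U := ⟨a0, rfl, rfl⟩
  obtain ⟨_, ⟨b, rfl⟩, k1, k2⟩ := hc.isPreconnected (⋃ x ∈ U, Metric.ball x (δ x)) Uᶜ
    (isOpen_biUnion fun x _ => Metric.isOpen_ball) hUc.isOpen_compl
    (fun x _ => by
      by_cases e : x ∈ U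
      · exact Or.inl (Set.mem_biUnion e (Metric.mem_ball_self (hδ x e)))
      · exact Or.inr e)
    ⟨g a0, ⟨a0, rfl⟩, Set.mem_biUnion m0 (Metric.mem_ball_self (hδ _ m0))⟩
    ⟨g a, ⟨a, rfl⟩, fun e => ha (hδ' _ e a (by simpa using hδ _ e))⟩
  obtain ⟨x, x1, x2⟩ := Set.mem_iUnion₂.mp k1
  exact k2 ⟨b, hδ' x x1 b (mem_ball_iff_norm.mp x2), rfl⟩

end Pool.Agent.Results.MP_850d3d_an.Yes
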